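import Pool.Agent.helper45.TF.Defs2

/-!
Module tf:CONG (MP_5b8da6_gt): congruent triangles are related by a Euclidean motion.
-/

namespace Pool.Agent.helper45.TF

open Set Topology

/-- extension of a partial isometry given by parametrisations -/
theorem CONG_extend {W : Type} [AddCommGroup W] [Module ℝ W] (f f' : W →ₗ[ℝ] E3)
    (h : ∀ x, ‖f x‖ = ‖f' x‖) : ∃ L : E3 ≃ₗᵢ[ℝ] E3, ∀ x, L (f x) = f' x := by
  have hker : LinearMap.ker f ≤ LinearMap.ker f' := by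
    intro x hx
    rw [LinearMap.mem_ker] at hx ⊢
    rw [← norm_eq_zero, ← h x, hx, norm_zero]
  let L₀ : LinearMap.range f →ₗ[ℝ] E3 :=
    ((LinearMap.ker f).liftQ f' hker).comp (f.quotKerEquivRange.symm : _ →ₗ[ℝ] _)
  have hL₀ : ∀ x (hx : f x ∈ LinearMap.range f), L₀ ⟨f x, hx⟩ = f' x := by
    intro x hx
    have e : f.quotKerEquivRange.symm ⟨f x, hx⟩ = (LinearMap.ker f).mkQ x := by
      rw [LinearEquiv.symm_apply_eq]
      rfl
    show (LinearMap.ker f).liftQ f' hker (f.quotKerEquivRange.symm ⟨f x, hx⟩) = f' x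
    rw [e]
    rfl
  let L₁ : LinearMap.range f →ₗᵢ[ℝ] E3 :=
    { L₀ with
      norm_map' := by
        rintro ⟨y, x, rfl⟩
        show ‖L₀ ⟨f x, _⟩‖ = ‖f x‖
        rw [hL₀ x, h x] }
  let L₂ : E3 →ₗᵢ[ℝ] E3 := L₁.extend
  refine ⟨L₂.toLinearIsometryEquiv rfl, fun x => ?_⟩
  have e1 : L₂ (f x) = L₁ ⟨f x, ⟨x, rfl⟩⟩ := LinearIsometry.extend_apply L₁ ⟨f x, ⟨x, rfl⟩⟩
  show L₂ (f x) = f' x
  rw [e1]
  exact hL₀ x _

theorem CONG : CONG_stmt := by
  intro a b c a' b' c' hab hac hbc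
  set u := b - a with hu
  set v := c - a with hv
  set u' := b' - a' with hu'
  set v' := c' - a' with hv'
  have h1 : ‖u‖ = ‖u'‖ := by
    rw [hu, hu', ← dist_eq_norm, ← dist_eq_norm, dist_comm, hab, dist_comm]
  have h2 : ‖v‖ = ‖v'‖ := by
    rw [hv, hv', ← dist_eq_norm, ← dist_eq_norm, dist_comm, hac, dist_comm]
  have h3 : ‖u - v‖ = ‖u' - v'‖ := by
    have e1 : u - v = b - c := by rw [hu, hv]; abel
    have e2 : u' - v' = b' - c' := by rw [hu', hv']; abel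
    rw [e1, e2, ← dist_eq_norm, ← dist_eq_norm, hbc]
  have h4 : inner ℝ u v = inner ℝ u' v' := by
    have e1 := norm_sub_sq_real u v
    have e2 := norm_sub_sq_real u' v'
    rw [h3, e2, h1, h2] at e1
    linarith
  let f : (ℝ × ℝ) →ₗ[ℝ] E3 :=
    (LinearMap.toSpanSingleton ℝ E3 u).comp (LinearMap.fst ℝ ℝ ℝ) +
      (LinearMap.toSpanSingleton ℝ E3 v).comp (LinearMap.snd ℝ ℝ ℝ)
  let f' : (ℝ × ℝ) →ₗ[ℝ] E3 :=
    (LinearMap.toSpanSingleton ℝ E3 u').comp (LinearMap.fst ℝ ℝ ℝ) +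
      (LinearMap.toSpanSingleton ℝ E3 v').comp (LinearMap.snd ℝ ℝ ℝ)
  have hf : ∀ x, f x = x.1 • u + x.2 • v := fun x => rfl
  have hf' : ∀ x, f' x = x.1 • u' + x.2 • v' := fun x => rfl
  have hnorm : ∀ x, ‖f x‖ = ‖f' x‖ := by
    intro x
    have key : ‖f x‖ ^ 2 = ‖f' x‖ ^ 2 := by
      rw [hf, hf', norm_add_sq_real, norm_add_sq_real, inner_smul_left, inner_smul_right,
        inner_smul_left, inner_smul_right, norm_smul, norm_smul, norm_smul, norm_smul, h1, h2, h4]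
    exact (pow_left_inj₀ (norm_nonneg _) (norm_nonneg _) two_ne_zero).1 key
  obtain ⟨L, hL⟩ := CONG_extend f f' hnorm
  have hLu : L u = u' := by
    have := hL (1, 0)
    rw [hf, hf'] at this
    simpa using this
  have hLv : L v = v' := by
    have := hL (0, 1)
    rw [hf, hf'] at this
    simpa using this
  let g : E3 ≃ᵃⁱ[ℝ] E3 := (AffineIsometryEquiv.vaddConst ℝ a).symm.trans
    (L.toAffineIsometryEquiv.trans (AffineIsometryEquiv.vaddConst ℝ a'))
  have hg : ∀ y, g y = L (y - a) + a' := fun y => rfl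
  refine ⟨g, ?_, ?_, ?_⟩
  · rw [hg, sub_self, map_zero, zero_add]
  · rw [hg, ← hu, hLu, hu', sub_add_cancel]
  · rw [hg, ← hv, hLv, hv', sub_add_cancel]

end Pool.Agent.helper45.TF
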