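import Pool.Agent.helper45.TF.Defs2

/-!
Module tf:DER (MP_5b8da6_gt): strict derivative of a quadratic system.
-/

namespace Pool.Agent.helper45.TF

open Set Topology

/-- the coordinate `i` of `extZero`, as a continuous linear functional -/
noncomputable def DER_co (n i : ℕ) : (Fin n → ℝ) →L[ℝ] ℝ :=
  if h : i < n then ContinuousLinearMap.proj (⟨i, h⟩ : Fin n) else 0

theorem DER_co_apply (n i : ℕ) (h : Fin n → ℝ) : DER_co n i h = extZero h i := by
  unfold DER_co extZero
  split_ifs with hi <;> simp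

theorem DER_ext (n i : ℕ) (z0 : Fin n → ℝ) :
    HasStrictFDerivAt (fun z : Fin n → ℝ => extOne z i) (DER_co n i) z0 := by
  unfold DER_co extOne
  split_ifs with hi
  · exact (ContinuousLinearMap.proj (R := ℝ) (φ := fun _ : Fin n => ℝ)
      (⟨i, hi⟩ : Fin n)).hasStrictFDerivAt
  · exact hasStrictFDerivAt_const _ _

/-- one quadratic form -/
theorem DER_one (n : ℕ) (q : QForm) (z0 : Fin n → ℝ) :
    ∃ L : (Fin n → ℝ) →L[ℝ] ℝ,
      HasStrictFDerivAt (fun z : Fin n → ℝ => evQ q (extOne z)) L z0 ∧
      ∀ h, L h = polQ q (extOne z0) (extZero h) := by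
  induction q with
  | nil =>
    refine ⟨0, ?_, fun h => ?_⟩
    · have : (fun z : Fin n → ℝ => evQ ([] : QForm) (extOne z)) = fun _ => (0 : ℝ) := by
        funext z
        simp [evQ]
      rw [this]
      exact hasStrictFDerivAt_const _ _
    · simp [polQ]
  | cons m q ih =>
    obtain ⟨L, hL, hL'⟩ := ih
    have h1 := (DER_ext n m.2.1 z0).const_mul (m.1 : ℝ)
    have h2 := (h1.mul (DER_ext n m.2.2 z0)).add hL
    refine ⟨((m.1 : ℝ) * extOne z0 m.2.1) • DER_co n m.2.2 +
      extOne z0 m.2.2 • (m.1 : ℝ) • DER_co n m.2.1 + L, ?_, ?_⟩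
    · have : (fun z : Fin n → ℝ => evQ (m :: q) (extOne z)) = fun z : Fin n → ℝ =>
          ((m.1 : ℝ) * extOne z m.2.1) * extOne z m.2.2 + evQ q (extOne z) := by
        funext z
        simp [evQ]
      rw [this]
      exact h2
    · intro h
      simp only [ContinuousLinearMap.add_apply, ContinuousLinearMap.smul_apply, smul_eq_mul,
        DER_co_apply, hL', polQ, List.map_cons, List.sum_cons]
      ring

theorem DER : DER_stmt := by
  intro m n Q z0
  choose L hL hL' using fun i => DER_one n (Q i) z0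
  refine ⟨ContinuousLinearMap.pi L, ?_, ?_⟩
  · exact hasStrictFDerivAt_pi.2 hL
  · intro h i
    exact hL' i h

end Pool.Agent.helper45.TF
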